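import Mathlib

set_option autoImplicit false

/-!
# Generalized `2d`-gons through the collinearity distance

From the incidence graph of a generalized `n`-gon with `n = 2 * d` (diameter `n`, girth `2 * n`)
we extract the distance function `δ` on points (half the distance in the incidence graph) and its
basic properties.
-/

namespace Pool.Agent.GenPolygon

open SimpleGraph

variable {P L : Type*}

/-- The incidence graph of a point-line geometry. -/
def inc (I : P → L → Prop) : SimpleGraph (P ⊕ L) :=
  SimpleGraph.fromRel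
    (fun x y : P ⊕ L => ∃ p l, x = Sum.inl p ∧ y = Sum.inr l ∧ I p l)

lemma inc_adj_lr {I : P → L → Prop} {p : P} {l : L} :
    (inc I).Adj (Sum.inl p) (Sum.inr l) ↔ I p l := by
  simp [inc, SimpleGraph.fromRel_adj]

lemma inc_adj_rl {I : P → L → Prop} {p : P} {l : L} :
    (inc I).Adj (Sum.inr l) (Sum.inl p) ↔ I p l := by
  rw [SimpleGraph.adj_comm, inc_adj_lr]

lemma inc_not_adj_ll {I : P → L → Prop} {p q : P} :
    ¬ (inc I).Adj (Sum.inl p) (Sum.inl q) := by
  simp [inc, SimpleGraph.fromRel_adj]

lemma inc_not_adj_rr {I : P → L → Prop} {l m : L} :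
    ¬ (inc I).Adj (Sum.inr l) (Sum.inr m) := by
  simp [inc, SimpleGraph.fromRel_adj]

/-- The two-colouring of the incidence graph. -/
def col (I : P → L → Prop) : (inc I).Coloring Bool :=
  SimpleGraph.Coloring.mk (fun x => x.isLeft) (by
    rintro (x | x) (y | y) h <;> simp
    · exact inc_not_adj_ll h
    · exact inc_not_adj_rr h)

/-- `GP d I δ`: `δ` behaves as the collinearity distance of a generalized `2d`-gon with incidence
relation `I`. -/
structure GP (d : ℕ) (I : P → L → Prop) (δ : P → P → ℕ) : Prop where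
  symm : ∀ x y, δ x y = δ y x
  zero : ∀ x y, δ x y = 0 ↔ x = y
  le : ∀ x y, δ x y ≤ d
  one : ∀ x y l, I x l → I y l → δ x y ≤ 1
  near : ∀ x l, ∃ k, I k l ∧ δ x k + 1 ≤ d ∧ ∀ k', I k' l → k' ≠ k → δ x k' = δ x k + 1
  back : ∀ x w, 1 ≤ δ x w → ∃ l k, I w l ∧ I k l ∧ δ x k + 1 = δ x w
  uniq : ∀ x w l l' k k', δ x w < d → I w l → I w l' → I k l → I k' l' →
    δ x k < δ x w → δ x k' < δ x w → l = l'
  opp : ∀ a, ∃ b, δ a b = d

section bridge

variable {V : Type*} {G : SimpleGraph V}

lemma exists_pred (hc : G.Preconnected) {x y : V} {n : ℕ} (h : G.dist x y = n + 1) :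
    ∃ z, G.Adj z y ∧ G.dist x z = n := by
  obtain ⟨p, hp⟩ := (hc y x).exists_walk_length_eq_dist
  rw [G.dist_comm, h] at hp
  cases p with
  | nil => simp at hp
  | @cons _ z _ hadj q =>
    refine ⟨z, hadj.symm, ?_⟩
    simp only [Walk.length_cons, Nat.add_right_cancel_iff] at hp
    have h1 : G.dist x z ≤ n := by
      rw [G.dist_comm]; exact hp ▸ G.dist_le q
    have h2 : G.dist x y ≤ G.dist x z + 1 := by
      obtain ⟨r, hr⟩ := (hc x z).exists_walk_length_eq_dist
      have := G.dist_le (r.concat hadj.symm)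
      rw [Walk.length_concat, hr] at this
      exact this
    omega

lemma dist_adj_le (hc : G.Preconnected) {x y z : V} (h : G.Adj z y) :
    G.dist x y ≤ G.dist x z + 1 := by
  obtain ⟨r, hr⟩ := (hc x z).exists_walk_length_eq_dist
  have := G.dist_le (r.concat h)
  rw [Walk.length_concat, hr] at this
  exact this

lemma uniq_pred (hc : G.Preconnected) {g : ℕ} (hg : (g : ℕ∞) ≤ G.egirth) {x y z z' : V}
    (hz : G.Adj z y) (hz' : G.Adj z' y) (h1 : G.dist x z + 1 = G.dist x y)
    (h2 : G.dist x z' + 1 = G.dist x y) (h3 : 2 * G.dist x y < g) : z = z' := by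
  by_contra hne
  obtain ⟨p, hp⟩ := (hc x z).exists_walk_length_eq_dist
  obtain ⟨p', hp'⟩ := (hc x z').exists_walk_length_eq_dist
  have hP : (p.concat hz).IsPath := by
    apply Walk.isPath_of_length_eq_dist
    rw [Walk.length_concat, hp, h1]
  have hP' : (p'.concat hz').IsPath := by
    apply Walk.isPath_of_length_eq_dist
    rw [Walk.length_concat, hp', h2]
  have hne2 : p.concat hz ≠ p'.concat hz' := by
    intro h
    have := congrArg Walk.penultimate h
    simp only [Walk.penultimate_concat] at this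
    exact hne this
  obtain ⟨w, -, -, c, hc1, hc2⟩ := hP.exists_isCycle_length_le_add_of_ne hP' hne2
  have h4 : (g : ℕ∞) ≤ c.length := hg.trans (G.egirth_le_length hc1)
  have h5 : g ≤ c.length := by exact_mod_cast h4
  rw [Walk.length_concat, Walk.length_concat] at hc2
  omega

end bridge

section main

variable {I : P → L → Prop}

lemma even_dist_iff (hc : (inc I).Preconnected) (x y : P ⊕ L) :
    Even ((inc I).dist x y) ↔ (x.isLeft ↔ y.isLeft) := by
  obtain ⟨p, hp⟩ := (hc x y).exists_walk_length_eq_dist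
  rw [← hp]
  exact (col I).even_length_iff_congr p

/-- The collinearity distance. -/
noncomputable def pd (I : P → L → Prop) (x y : P) : ℕ :=
  (inc I).dist (Sum.inl x) (Sum.inl y) / 2

lemma exists_opposite (hc : (inc I).Preconnected) {d : ℕ}
    (hdle : ∀ x y, (inc I).dist x y ≤ 2 * d)
    (hg : (inc I).egirth = ((4 * d : ℕ) : ℕ∞)) (x : P ⊕ L) :
    ∃ y, (inc I).dist x y = 2 * d := by
  classical
  have hnac : ¬ (inc I).IsAcyclic := by
    rw [← egirth_eq_top, hg]
    exact ENat.natCast_ne_top _
  obtain ⟨v, c, hcyc, -⟩ := exists_egirth_eq_length.2 hnac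
  obtain ⟨y, hy, hmax⟩ := Finset.exists_max_image c.support.toFinset
    (fun y => (inc I).dist x y) ⟨v, by simp⟩
  refine ⟨y, ?_⟩
  by_contra hne
  have hy' : y ∈ c.support := by simpa using hy
  have hlt : (inc I).dist x y < 2 * d := lt_of_le_of_ne (hdle x y) hne
  set c' := c.rotate _ hy' with hc'
  have hcyc' : c'.IsCycle := hcyc.rotate hy'
  have hsup : ∀ z, z ∈ c'.support → (inc I).dist x z ≤ (inc I).dist x y := by
    intro z hz
    apply hmax
    rw [List.mem_toFinset]
    have := (Walk.support_rotate c _ hy')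
    by_cases hzy : z = y
    · rw [hzy]; exact hy'
    · have h1 : z ∈ c'.support.tail := by
        rw [Walk.mem_support_iff] at hz
        rcases hz with hz | hz
        · exact absurd hz hzy
        · exact hz
      have h2 : z ∈ c.support.tail := by
        have h3 := this.mem_iff (a := z)
        exact h3.1 h1
      exact List.mem_of_mem_tail h2
  have hnn : ¬ c'.Nil := hcyc'.not_nil
  have hadj1 : (inc I).Adj c'.snd y := (c'.adj_snd hnn).symm
  have hadj2 : (inc I).Adj c'.penultimate y := c'.adj_penultimate hnn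
  have key : ∀ z, z ∈ c'.support → (inc I).Adj z y → (inc I).dist x z + 1 = (inc I).dist x y := by
    intro z hz hadj
    have h1 := hsup z hz
    have h2 := dist_adj_le (x := x) hc hadj
    have h3 : (inc I).dist x z ≠ (inc I).dist x y := by
      intro h
      have e1 := even_dist_iff hc x z
      have e2 := even_dist_iff hc x y
      rw [h, e2] at e1
      have hzy := (col I).valid hadj
      rcases x with x | x <;> rcases y with y | y <;> rcases z with z | z <;>
        simp_all [inc_not_adj_ll, inc_not_adj_rr]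
    omega
  have hz1 := key _ (c'.getVert_mem_support 1) hadj1
  have hz2 := key _ (c'.getVert_mem_support _) hadj2
  have := uniq_pred (g := 4 * d) hc (by rw [hg]) hadj1 hadj2 hz1 hz2 (by omega)
  exact hcyc'.snd_ne_penultimate this

/-- A generalized `2d`-gon (incidence graph of diameter `2d` and girth `4d`) in which every line
has a point satisfies `GP d I (pd I)`. -/
theorem gp_of_inc {d : ℕ} (hdiam : (inc I).ediam = ((2 * d : ℕ) : ℕ∞))
    (hg : (inc I).egirth = ((4 * d : ℕ) : ℕ∞)) : GP d I (pd I) := by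
  have hc : (inc I).Preconnected := preconnected_of_ediam_ne_top (by
    rw [hdiam]; exact ENat.natCast_ne_top _)
  have hdle : ∀ x y, (inc I).dist x y ≤ 2 * d := by
    intro x y
    have h1 : (inc I).edist x y ≤ ((2 * d : ℕ) : ℕ∞) := hdiam ▸ edist_le_ediam
    rw [← (hc x y).coe_dist_eq_edist] at h1
    exact_mod_cast h1
  have hev : ∀ x y : P, Even ((inc I).dist (Sum.inl x) (Sum.inl y)) := fun x y => by
    rw [even_dist_iff hc]; simp
  have hodd : ∀ (x : P) (l : L), ¬ Even ((inc I).dist (Sum.inl x) (Sum.inr l)) := fun x l => by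
    rw [even_dist_iff hc]; simp
  have hpd : ∀ x y : P, (inc I).dist (Sum.inl x) (Sum.inl y) = 2 * pd I x y := fun x y => by
    obtain ⟨k, hk⟩ := hev x y
    unfold pd
    omega
  have hodd' : ∀ (x : P) (l : L), ∃ k, (inc I).dist (Sum.inl x) (Sum.inr l) = 2 * k + 1 := by
    intro x l
    have h := hodd x l
    rw [Nat.not_even_iff_odd] at h
    exact h
  -- distances from a point to the points of a line
  have hcase : ∀ (x k : P) (l : L), I k l → ∀ e, (inc I).dist (Sum.inl x) (Sum.inr l) = 2 * e + 1 →
      pd I x k = e ∨ pd I x k = e + 1 := by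
    intro x k l hk e he
    have h1 := dist_adj_le (x := Sum.inl x) hc (inc_adj_rl.2 hk)
    have h2 := dist_adj_le (x := Sum.inl x) hc (inc_adj_lr.2 hk)
    rw [hpd] at h1 h2
    omega
  have huni : ∀ (x k k' : P) (l : L), I k l → I k' l → ∀ e,
      (inc I).dist (Sum.inl x) (Sum.inr l) = 2 * e + 1 → pd I x k = e → pd I x k' = e →
      k = k' := by
    intro x k k' l hk hk' e he h1 h2
    have h3 := hdle (Sum.inl x) (Sum.inr l)
    have := uniq_pred (g := 4 * d) hc (by rw [hg]) (inc_adj_lr.2 hk) (inc_adj_lr.2 hk')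
      (x := Sum.inl x) (by rw [hpd]; omega) (by rw [hpd]; omega) (by omega)
    simpa using this
  have hpred : ∀ (x : P) (l : L) e, (inc I).dist (Sum.inl x) (Sum.inr l) = 2 * e + 1 →
      ∃ k, I k l ∧ pd I x k = e := by
    intro x l e he
    obtain ⟨z, hz1, hz2⟩ := exists_pred hc he
    rcases z with z | z
    · refine ⟨z, inc_adj_lr.1 hz1, ?_⟩
      rw [hpd] at hz2; omega
    · exact absurd hz1 inc_not_adj_rr
  refine ⟨?_, ?_, ?_, ?_, ?_, ?_, ?_, ?_⟩
  · intro x y
    unfold pd
    rw [SimpleGraph.dist_comm]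
  · intro x y
    constructor
    · intro h
      have h1 := hpd x y
      rw [h] at h1
      have h2 := ((hc _ _).dist_eq_zero_iff).1 h1
      simpa using h2
    · rintro rfl
      simp [pd]
  · intro x y
    have h1 := hdle (Sum.inl x) (Sum.inl y)
    rw [hpd] at h1
    omega
  · intro x y l hx hy
    have h1 : (inc I).dist (Sum.inl x) (Sum.inr l) = 2 * 0 + 1 := by
      have h2 := dist_adj_le (x := Sum.inl x) hc (inc_adj_lr.2 hx)
      obtain ⟨k, hk⟩ := hodd' x l
      rw [SimpleGraph.dist_self] at h2
      omega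
    rcases hcase x y l hy 0 h1 with h | h <;> omega
  · intro x l
    obtain ⟨e, he⟩ := hodd' x l
    obtain ⟨k, hk1, hk2⟩ := hpred x l e he
    refine ⟨k, hk1, ?_, ?_⟩
    · have := hdle (Sum.inl x) (Sum.inr l)
      omega
    · intro k' hk' hne
      rcases hcase x k' l hk' e he with h | h
      · exact absurd (huni x k' k l hk' hk1 e he h hk2) hne
      · omega
  · intro x w hw
    have h1 := hpd x w
    obtain ⟨n, hn⟩ : ∃ n, pd I x w = n + 1 := ⟨pd I x w - 1, by omega⟩
    rw [hn, show 2 * (n + 1) = (2 * n + 1) + 1 by ring] at h1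
    obtain ⟨z, hz1, hz2⟩ := exists_pred hc h1
    rcases z with z | l
    · exact absurd hz1 inc_not_adj_ll
    · obtain ⟨k, hk1, hk2⟩ := hpred x l n hz2
      exact ⟨l, k, inc_adj_rl.1 hz1, hk1, by omega⟩
  · intro x w l l' k k' hlt hl hl' hk hk' h1 h2
    have aux : ∀ (m : L) (j : P), I w m → I j m → pd I x j < pd I x w →
        (inc I).dist (Sum.inl x) (Sum.inr m) + 1 = 2 * pd I x w := by
      intro m j hwm hjm hlt'
      obtain ⟨e, he⟩ := hodd' x m
      rcases hcase x j m hjm e he with h | h <;> rcases hcase x w m hwm e he with h' | h' <;> omega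
    have e1 := aux l k hl hk h1
    have e2 := aux l' k' hl' hk' h2
    have := uniq_pred (g := 4 * d) hc (by rw [hg]) (inc_adj_rl.2 hl) (inc_adj_rl.2 hl')
      (x := Sum.inl x) (by rw [hpd]; omega) (by rw [hpd]; omega) (by rw [hpd]; omega)
    simpa using this
  · intro a
    obtain ⟨y, hy⟩ := exists_opposite hc hdle hg (Sum.inl a)
    rcases y with y | l
    · exact ⟨y, by rw [hpd] at hy; omega⟩
    · exact absurd (by rw [hy]; exact even_two_mul d) (hodd a l)

end main

end Pool.Agent.GenPolygon
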