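import Pool.Agent.GenPolygon.Basic

set_option autoImplicit false

/-!
# Generalized hexagons with three points per line

`Hex δ T` : abstract properties of the distance function `δ` and of the relation `T x y z`
(meaning that `x, y, z` are the three points of a line) in a generalized hexagon with three points per line.
-/

namespace Pool.Agent.GenPolygon

variable {P : Type*}

structure Hex (δ : P → P → ℕ) (T : P → P → P → Prop) : Prop where
  symm : ∀ x y, δ x y = δ y x
  zero : ∀ x y, δ x y = 0 ↔ x = y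
  le : ∀ x y, δ x y ≤ 3
  t1 : ∀ {x y z}, T x y z → T y x z
  t2 : ∀ {x y z}, T x y z → T x z y
  R1 : ∀ x {k1 k2 k3}, T k1 k2 k3 →
    (δ x k1 = δ x k2 ∧ δ x k3 + 1 = δ x k1) ∨ (δ x k1 = δ x k3 ∧ δ x k2 + 1 = δ x k1) ∨
      (δ x k2 = δ x k3 ∧ δ x k1 + 1 = δ x k2)
  join : ∀ {x y}, δ x y = 1 → ∃ z, T x y z
  third : ∀ {x y z z'}, T x y z → T x y z' → z = z'
  away : ∀ {x w k k' l l'}, T w k k' → T w l l' → δ x w ≤ 2 → δ x k + 1 = δ x w →
    l ≠ k → l ≠ k' → δ x l = δ x w + 1 ∧ δ x l' = δ x w + 1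
  mid : ∀ {x y}, δ x y = 2 → ∃ z, δ x z = 1 ∧ δ z y = 1

/-- Three distinct points of a common line. -/
def Tri3 {L : Type*} (I : P → L → Prop) (x y z : P) : Prop :=
  ∃ l, I x l ∧ I y l ∧ I z l ∧ x ≠ y ∧ y ≠ z ∧ x ≠ z

lemma hex_of_gp {L : Type*} {I : P → L → Prop} {δ : P → P → ℕ} (G : GP 3 I δ)
    (h3 : ∀ l, {p : P | I p l}.ncard = 3) : Hex δ (Tri3 I) := by
  have hline : ∀ l x y z, I x l → I y l → I z l → x ≠ y → y ≠ z → x ≠ z →
      ∀ p, I p l → p = x ∨ p = y ∨ p = z := by
    intro l x y z hx hy hz hxy hyz hxz p hp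
    have hfin : {p : P | I p l}.Finite := Set.finite_of_ncard_ne_zero (by rw [h3 l]; norm_num)
    have hsub : ({x, y, z} : Set P) ⊆ {p : P | I p l} := by
      intro q hq
      rcases hq with rfl | rfl | rfl
      · exact hx
      · exact hy
      · exact hz
    have hcard : ({x, y, z} : Set P).ncard = 3 := by
      rw [Set.ncard_eq_three]
      exact ⟨x, y, z, hxy, hxz, hyz, rfl⟩
    have heq : ({x, y, z} : Set P) = {p : P | I p l} :=
      Set.eq_of_subset_of_ncard_le hsub (by rw [h3 l, hcard]) hfin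
    have : p ∈ ({x, y, z} : Set P) := by rw [heq]; exact hp
    simpa using this
  have huniq : ∀ x y l l', x ≠ y → I x l → I y l → I x l' → I y l' → l = l' := by
    intro x y l l' hne hx hy hx' hy'
    have h1 := G.one x y l hx hy
    have h0 : δ x y ≠ 0 := fun h => hne ((G.zero x y).1 h)
    have hxx : δ x x = 0 := (G.zero x x).2 rfl
    exact G.uniq x y l l' x x (by omega) hy hy' hx hx' (by omega) (by omega)
  have hR1 : ∀ x {k1 k2 k3}, Tri3 I k1 k2 k3 →
    (δ x k1 = δ x k2 ∧ δ x k3 + 1 = δ x k1) ∨ (δ x k1 = δ x k3 ∧ δ x k2 + 1 = δ x k1) ∨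
      (δ x k2 = δ x k3 ∧ δ x k1 + 1 = δ x k2) := by
    rintro x k1 k2 k3 ⟨l, h1, h2, h3, h12, h23, h13⟩
    obtain ⟨k, hk, -, hk2⟩ := G.near x l
    rcases hline l k1 k2 k3 h1 h2 h3 h12 h23 h13 k hk with rfl | rfl | rfl
    · have e2 := hk2 k2 h2 h12.symm
      have e3 := hk2 k3 h3 h13.symm
      omega
    · have e2 := hk2 k1 h1 h12
      have e3 := hk2 k3 h3 h23.symm
      omega
    · have e2 := hk2 k1 h1 h13
      have e3 := hk2 k2 h2 h23
      omega
  have hjoin : ∀ {x y}, δ x y = 1 → ∃ z, Tri3 I x y z := by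
    intro x y hxy
    obtain ⟨l, k, h1, h2, h4⟩ := G.back x y (by omega)
    have hk : x = k := (G.zero x k).1 (by omega)
    subst hk
    have hne : x ≠ y := fun h => by
      rw [(G.zero x y).2 h] at hxy; omega
    have hfin : {p : P | I p l}.Finite := Set.finite_of_ncard_ne_zero (by rw [h3 l]; norm_num)
    by_contra hcon
    push Not at hcon
    have hsub : {p : P | I p l} ⊆ ({x, y} : Set P) := by
      intro z hz
      by_contra hz2
      simp only [Set.mem_insert_iff, Set.mem_singleton_iff, not_or] at hz2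
      exact hcon z ⟨l, h2, h1, hz, hne, fun h => hz2.2 h.symm, fun h => hz2.1 h.symm⟩
    have h5 := Set.ncard_le_ncard hsub (by simp)
    rw [h3 l, Set.ncard_pair hne] at h5
    omega
  refine ⟨G.symm, G.zero, G.le, ?_, ?_, hR1, hjoin, ?_, ?_, ?_⟩
  · rintro x y z ⟨l, h1, h2, h3, h12, h23, h13⟩
    exact ⟨l, h2, h1, h3, h12.symm, h13, h23⟩
  · rintro x y z ⟨l, h1, h2, h3, h12, h23, h13⟩
    exact ⟨l, h1, h3, h2, h13, h23.symm, h12⟩
  · rintro x y z z' ⟨l, h1, h2, h3, h12, h23, h13⟩ ⟨l', h1', h2', h3', h12', h23', h13'⟩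
    have := huniq x y l l' h12 h1 h2 h1' h2'
    subst this
    rcases hline l x y z h1 h2 h3 h12 h23 h13 z' h3' with h | h | h
    · exact absurd h.symm h13'
    · exact absurd h.symm h23'
    · exact h.symm
  · rintro x w k k' l l' hK hL hw hk hlk hlk'
    have hK0 := hK
    have hL0 := hL
    obtain ⟨m, h1, h2, h3, h12, h23, h13⟩ := hK
    obtain ⟨m', h1', h2', h3', h12', h23', h13'⟩ := hL
    have hmm : m ≠ m' := by
      rintro rfl
      rcases hline m w k k' h1 h2 h3 h12 h23 h13 l h2' with h | h | h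
      · exact h12' h.symm
      · exact hlk h
      · exact hlk' h
    have hl : ¬ δ x l < δ x w := fun h =>
      hmm (G.uniq x w m m' k l (by omega) h1 h1' h2 h2' (by omega) h)
    have hl' : ¬ δ x l' < δ x w := fun h =>
      hmm (G.uniq x w m m' k l' (by omega) h1 h1' h2 h3' (by omega) h)
    have := hR1 x hL0
    omega
  · intro x y hxy
    obtain ⟨l, k, h1, h2, h4⟩ := G.back x y (by omega)
    refine ⟨k, by omega, ?_⟩
    have h5 := G.one k y l h2 h1
    have h6 : δ k y ≠ 0 := fun h => by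
      have := (G.zero k y).1 h
      subst this
      omega
    omega

namespace Hex

variable {δ : P → P → ℕ} {T : P → P → P → Prop}

lemma self (H : Hex δ T) (x : P) : δ x x = 0 := (H.zero x x).2 rfl

lemma ne_of (_H : Hex δ T) {z x y : P} (h : δ z x ≠ δ z y) : x ≠ y := fun e => h (e ▸ rfl)

lemma ne_of' (_H : Hex δ T) {z x y : P} (h : δ x z ≠ δ y z) : x ≠ y := fun e => h (e ▸ rfl)

/-- two points at distance 2 have a unique common neighbour -/
lemma midu (H : Hex δ T) {x y z z' : P} (hxy : 2 ≤ δ x y) (h1 : δ x z = 1) (h2 : δ z y = 1)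
    (h1' : δ x z' = 1) (h2' : δ z' y = 1) : z = z' := by
  by_contra hne
  have s1 := H.symm y z
  have s2 := H.symm y z'
  obtain ⟨r, hr⟩ := H.join (x := y) (y := z) (by omega)
  obtain ⟨r', hr'⟩ := H.join (x := y) (y := z') (by omega)
  have e1 := H.R1 x hr
  by_cases hzr : z' = r
  · subst hzr; omega
  · have := H.away hr hr' (x := x) (by omega) (by omega) (fun h => hne h.symm) hzr
    omega


lemma l33 (H : Hex δ T) {o x y z : P} (h : T x y z) (h1 : δ o x = 3) (h2 : δ o y = 3) :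
    δ o z = 2 := by
  have := H.R1 o h
  have := H.le o z
  omega

lemma l32 (H : Hex δ T) {o x y z : P} (h : T x y z) (h1 : δ o x = 3) (h2 : δ o y = 2) :
    δ o z = 3 := by
  have := H.R1 o h
  have := H.le o z
  omega

lemma l23 (H : Hex δ T) {o x y z : P} (h : T x y z) (h1 : δ o x = 2) (h2 : δ o y = 3) :
    δ o z = 3 := by
  have := H.R1 o h
  have := H.le o z
  omega

lemma l22 (H : Hex δ T) {o x y z : P} (h : T x y z) (h1 : δ o x = 2) (h2 : δ o y = 2) :
    δ o z = 1 := by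
  have := H.R1 o h
  have := H.le o z
  omega

lemma l21 (H : Hex δ T) {o x y z : P} (h : T x y z) (h1 : δ o x = 2) (h2 : δ o y = 1) :
    δ o z = 2 := by
  have := H.R1 o h
  have := H.le o z
  omega

lemma l3 (H : Hex δ T) {o x y z : P} (h : T x y z) (h1 : δ o x = 3) :
    (δ o y = 2 ∧ δ o z = 3) ∨ (δ o y = 3 ∧ δ o z = 2) := by
  have := H.R1 o h
  have := H.le o z
  have := H.le o y
  omega

lemma l2 (H : Hex δ T) {o x y z : P} (h : T x y z) (h1 : δ o x = 2) :
    (δ o y = 1 ∧ δ o z = 2) ∨ (δ o y = 2 ∧ δ o z = 1) ∨ (δ o y = 3 ∧ δ o z = 3) := by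
  have := H.R1 o h
  have := H.le o z
  have := H.le o y
  omega

end Hex

/-- `p i, q i` is the path from `a` to `b` along the `i`-th line through `a`; `u, v, w` are the
third points on its three lines. -/
structure Conf (δ : P → P → ℕ) (T : P → P → P → Prop) {ι : Type*} (a b : P)
    (p q v u w : ι → P) : Prop where
  ab : δ a b = 3
  hp : ∀ i, T a (p i) (u i)
  hk : ∀ i, T (p i) (q i) (v i)
  hq : ∀ i, T b (q i) (w i)
  inj : ∀ i j, i ≠ j → p i ≠ p j

namespace Conf

variable {δ : P → P → ℕ} {T : P → P → P → Prop} {ι : Type*} {a b : P}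
  {p q v u w : ι → P}

lemma aa (H : Hex δ T) (C : Conf δ T a b p q v u w) (i : ι) :
    δ a (p i) = 1 ∧ δ a (u i) = 1 ∧ δ a (q i) = 2 ∧ δ a (v i) = 2 ∧ δ a (w i) = 3 := by
  have h1 := H.R1 a (C.hp i)
  have h2 := H.R1 a (C.hk i)
  have h3 := H.R1 a (C.hq i)
  have h4 := H.self a
  have h5 := C.ab
  have h6 := H.le a (w i)
  omega

lemma bb (H : Hex δ T) (C : Conf δ T a b p q v u w) (i : ι) :
    δ b (q i) = 1 ∧ δ b (w i) = 1 ∧ δ b (p i) = 2 ∧ δ b (v i) = 2 ∧ δ b (u i) = 3 := by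
  have h1 := H.R1 b (C.hp i)
  have h2 := H.R1 b (C.hk i)
  have h3 := H.R1 b (C.hq i)
  have h4 := H.self b
  have h5 := C.ab
  have h5' := H.symm a b
  have h6 := H.le b (u i)
  omega

lemma qinj (H : Hex δ T) (C : Conf δ T a b p q v u w) (i j : ι) (hij : i ≠ j) :
    q i ≠ q j := by
  intro h
  have a1 := C.aa H i
  have a2 := C.aa H j
  have k1 := H.R1 (q i) (C.hk i)
  have k2 := H.R1 (q j) (C.hk j)
  have s1 := H.self (q i)
  have s2 := H.self (q j)
  have y1 := H.symm (p i) (q i)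
  have y2 := H.symm (p j) (q j)
  refine C.inj i j hij (H.midu (x := a) (y := q i) (by omega) (by omega) (by omega)
    (by omega) ?_)
  rw [h]; omega

lemma swap (H : Hex δ T) (C : Conf δ T a b p q v u w) : Conf δ T b a q p v w u where
  ab := by rw [H.symm]; exact C.ab
  hp := C.hq
  hk := fun i => H.t1 (C.hk i)
  hq := C.hp
  inj := C.qinj H

lemma intra (H : Hex δ T) (C : Conf δ T a b p q v u w) (i : ι) :
    δ (p i) (q i) = 1 ∧ δ (p i) (u i) = 1 ∧ δ (p i) (v i) = 1 ∧ δ (p i) (w i) = 2 ∧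
    δ (q i) (v i) = 1 ∧ δ (q i) (w i) = 1 ∧ δ (q i) (u i) = 2 ∧
    δ (v i) (u i) = 2 ∧ δ (v i) (w i) = 2 ∧ δ (u i) (w i) = 3 := by
  have a1 := C.aa H i
  have b1 := C.bb H i
  have e1 := H.R1 (p i) (C.hp i)
  have e2 := H.R1 (p i) (C.hk i)
  have e3 := H.R1 (p i) (C.hq i)
  have f1 := H.R1 (q i) (C.hp i)
  have f2 := H.R1 (q i) (C.hk i)
  have f3 := H.R1 (q i) (C.hq i)
  have g1 := H.R1 (v i) (C.hp i)
  have g2 := H.R1 (v i) (C.hk i)
  have g3 := H.R1 (v i) (C.hq i)
  have i3 := H.R1 (u i) (C.hq i)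
  have i2 := H.R1 (u i) (C.hk i)
  have i1 := H.R1 (u i) (C.hp i)
  have s1 := H.self (p i)
  have s2 := H.self (q i)
  have s3 := H.self (v i)
  have s4 := H.self (u i)
  have y1 := H.symm a (p i)
  have y2 := H.symm b (p i)
  have y3 := H.symm a (q i)
  have y4 := H.symm b (q i)
  have y5 := H.symm a (v i)
  have y6 := H.symm b (v i)
  have y7 := H.symm a (u i)
  have y8 := H.symm b (u i)
  have y9 := H.symm (p i) (q i)
  have y10 := H.symm (p i) (v i)
  have y11 := H.symm (q i) (v i)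
  have y12 := H.symm (p i) (u i)
  have y13 := H.symm (q i) (u i)
  have l1 := H.le (u i) (w i)
  omega


/-- distances between points of different paths, first part -/
lemma inter1 (H : Hex δ T) (C : Conf δ T a b p q v u w) {i j : ι} (hij : i ≠ j) :
    δ (p i) (p j) = 2 ∧ δ (p i) (u j) = 2 ∧ δ (u i) (p j) = 2 ∧ δ (u i) (u j) = 2 ∧
    δ (p i) (q j) = 3 ∧ δ (p i) (v j) = 3 ∧ δ (u i) (q j) = 3 ∧ δ (u i) (v j) = 3 := by
  have ai := C.aa H i
  have aj := C.aa H j
  have bi := C.bb H i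
  have bj := C.bb H j
  have ne1 : p j ≠ p i := C.inj j i hij.symm
  have ne2 : p j ≠ u i := H.ne_of (z := b) (by omega)
  have ne3 : u j ≠ p i := H.ne_of (z := b) (by omega)
  have s1 := H.self (p i)
  have s2 := H.self (u i)
  have y1 := H.symm a (p i)
  have y2 := H.symm a (u i)
  have k1 := H.away (x := p i) (C.hp i) (C.hp j) (by omega) (by omega) ne1 ne2
  have k2 := H.away (x := u i) (H.t2 (C.hp i)) (C.hp j) (by omega) (by omega) ne2 ne1
  -- now the lines `p j, q j, v j`
  have T1 : T (p j) a (u j) := H.t1 (C.hp j)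
  have ne4 : q j ≠ a := H.ne_of (z := a) (by have := H.self a; omega)
  have ne5 : q j ≠ u j := H.ne_of (z := a) (by omega)
  have k3 := H.away (x := p i) T1 (C.hk j) (by omega) (by omega) ne4 ne5
  have k4 := H.away (x := u i) T1 (C.hk j) (by omega) (by omega) ne4 ne5
  omega

lemma inter (H : Hex δ T) (C : Conf δ T a b p q v u w) {i j : ι} (hij : i ≠ j) :
    δ (q i) (q j) = 2 ∧ δ (q i) (w j) = 2 ∧ δ (w i) (q j) = 2 ∧ δ (w i) (w j) = 2 ∧
    δ (q i) (p j) = 3 ∧ δ (q i) (v j) = 3 ∧ δ (w i) (p j) = 3 ∧ δ (w i) (v j) = 3 ∧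
    δ (u i) (w j) = 2 ∧ δ (v i) (v j) = 2 := by
  have k1 := C.inter1 H hij
  have k1' := C.inter1 H hij.symm
  have k2 := (C.swap H).inter1 H hij
  have k2' := (C.swap H).inter1 H hij.symm
  have bi := C.bb H i
  have e1 := H.R1 (u i) (C.hq j)
  have e2 := H.R1 (v i) (C.hk j)
  have y1 := H.symm b (u i)
  have y2 := H.symm (p j) (v i)
  have y3 := H.symm (q j) (v i)
  have l1 := H.le (u i) b
  have l2 := H.le (v i) (p j)
  omega

/-- `c` is the common neighbour of `u i` and `w j` -/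
lemma cfact (H : Hex δ T) (C : Conf δ T a b p q v u w) {i j : ι} (hij : i ≠ j) {c : P}
    (h1 : δ (u i) c = 1) (h2 : δ c (w j) = 1) :
    (∀ k, k ≠ i → δ (p k) c = 3) ∧ (∀ k, k ≠ j → δ (q k) c = 3) ∧
    (∀ k, k ≠ i → k ≠ j → δ c (v k) = 2) ∧ δ (v i) c = 3 ∧ δ (v j) c = 3 ∧
    δ a c = 2 ∧ δ b c = 2 := by
  have I1 := C.intra H i
  have I2 := C.intra H j
  have A1 := C.aa H i
  have B1 := C.bb H j
  have A2 := C.aa H j
  have B2 := C.bb H i
  have X1 := C.inter1 H hij
  have X2 := C.inter H hij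
  have X3 := C.inter H hij.symm
  have yc := H.symm c (w j)
  have yc2 := H.symm (u i) c
  obtain ⟨r, hr⟩ := H.join h1
  obtain ⟨s, hs⟩ := H.join (x := w j) (y := c) (by omega)
  have n1 : c ≠ a := H.ne_of' (z := w j) (by omega)
  have n2 : c ≠ p i := H.ne_of' (z := w j) (by have := H.symm (p i) (w j); omega)
  have n3 : c ≠ b := H.ne_of (z := u i) (by have := H.symm b (u i); omega)
  have n4 : c ≠ q j := H.ne_of (z := u i) (by omega)
  have Ta : T (u i) a (p i) := H.t1 (H.t2 (C.hp i))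
  have Tb : T (w j) b (q j) := H.t1 (H.t2 (C.hq j))
  have P1 : ∀ k, k ≠ i → δ (p k) c = 3 := by
    intro k hk
    have Y := C.inter1 H hk
    have Z := C.aa H k
    have y := H.symm a (p k)
    have := H.away (x := p k) Ta hr (by omega) (by omega) n1 n2
    omega
  have P2 : ∀ k, k ≠ j → δ (q k) c = 3 := by
    intro k hk
    have Y := C.inter H hk
    have Z := C.bb H k
    have y := H.symm b (q k)
    have := H.away (x := q k) Tb hs (by omega) (by omega) n3 n4
    omega
  refine ⟨P1, P2, ?_, ?_, ?_, ?_, ?_⟩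
  · intro k hk1 hk2
    have e1 := P1 k hk1
    have e2 := P2 k hk2
    have e3 := H.R1 c (C.hk k)
    have y1 := H.symm (p k) c
    have y2 := H.symm (q k) c
    have l1 := H.le c (v k)
    omega
  · have y := H.symm (p i) (v i)
    have := H.away (x := v i) (H.t2 Ta) hr (by omega) (by omega) n2 n1
    omega
  · have y := H.symm (q j) (v j)
    have := H.away (x := v j) (H.t2 Tb) hs (by omega) (by omega) n4 n3
    omega
  · have s0 := H.self a
    have := H.away (x := a) Ta hr (by omega) (by omega) n1 n2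
    omega
  · have s0 := H.self b
    have := H.away (x := b) Tb hs (by omega) (by omega) n3 n4
    omega

/-- `m` is a common neighbour of `v i` and `v k` -/
lemma mfact (H : Hex δ T) (C : Conf δ T a b p q v u w) {i k : ι} (hik : i ≠ k) {m : P}
    (h1 : δ (v i) m = 1) (h2 : δ m (v k) = 1) :
    δ a m = 3 ∧ δ b m = 3 ∧ ∀ j, j ≠ i → j ≠ k → δ (v j) m ≠ 2 := by
  have I1 := C.intra H i
  have I2 := C.intra H k
  have A1 := C.aa H i
  have B1 := C.bb H i
  have X1 := C.inter1 H hik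
  have X2 := C.inter H hik
  obtain ⟨t, ht⟩ := H.join h1
  have ym := H.symm m (v k)
  obtain ⟨t', ht'⟩ := H.join (x := v k) (y := m) (by omega)
  have Tp : T (v i) (p i) (q i) := H.t1 (H.t2 (C.hk i))
  have n1 : m ≠ p i := H.ne_of' (z := v k) (by omega)
  have n2 : m ≠ q i := H.ne_of' (z := v k) (by omega)
  refine ⟨?_, ?_, ?_⟩
  · have := H.away (x := a) Tp ht (by omega) (by omega) n1 n2
    omega
  · have := H.away (x := b) (H.t2 Tp) ht (by omega) (by omega) n2 n1
    omega
  · intro j hji hjk hj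
    have Y1 := C.inter H hji
    have Y2 := C.inter H hjk
    have e1 := H.R1 (v j) ht
    have T1 : T m t (v i) := H.t2 (H.t1 ht)
    have T2 : T m (v k) t' := H.t1 ht'
    have nk1 : v k ≠ t := by
      intro h
      have e := H.R1 (v i) ht
      have s := H.self (v i)
      rw [← h] at e
      omega
    have nk2 : v k ≠ v i := by
      intro h
      have s := H.self (v i)
      rw [h] at X2
      omega
    have := H.away (x := v j) T1 T2 (by omega) (by omega) nk1 nk2
    omega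


lemma five (H : Hex δ T) (C : Conf δ T a b p q v u w) {i j k : ι} (hij : i ≠ j) (hik : i ≠ k)
    (hjk : j ≠ k) {c c' m r s t t' : P}
    (hc1 : δ (u i) c = 1) (hc2 : δ c (w j) = 1) (hs : T (w j) c s)
    (hc1' : δ (u j) c' = 1) (hc2' : δ c' (w i) = 1) (hr : T (u j) c' r)
    (hm1 : δ (v i) m = 1) (hm2 : δ m (v k) = 1) (ht : T (v i) m t) (ht' : T (v k) m t') :
    δ t' c = 1 ∨ δ t' c' = 1 ∨ δ (v j) m = 1 ∨ δ t s = 1 ∨ δ t r = 1 := by
  obtain ⟨-, -, c3, c4, -, -, -⟩ := C.cfact H hij hc1 hc2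
  obtain ⟨-, -, d3, -, d5, -, -⟩ := C.cfact H hij.symm hc1' hc2'
  have ck := c3 k hik.symm hjk.symm
  have dk := d3 k hjk.symm hik.symm
  have ci : δ c (v i) = 3 := by rw [H.symm]; exact c4
  have di : δ c' (v i) = 3 := by rw [H.symm]; exact d5
  by_contra hcon
  push Not at hcon
  obtain ⟨n1, n2, n3, n4, n5⟩ := hcon
  -- distances from `c`
  have hc : δ c m = 3 ∧ δ t c = 2 := by
    have y := H.symm c t
    have y' := H.symm c t'
    rcases H.l3 ht ci with h | h
    · exfalso
      have := H.l22 ht' ck h.1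
      omega
    · omega
  have hc' : δ c' m = 3 ∧ δ t c' = 2 := by
    have y := H.symm c' t
    have y' := H.symm c' t'
    rcases H.l3 ht di with h | h
    · exfalso
      have := H.l22 ht' dk h.1
      omega
    · omega
  -- distances from `m` to the `j`-th path
  obtain ⟨m1, m2, m3⟩ := C.mfact H hik hm1 hm2
  have mj := m3 j hij.symm hjk
  have y1 := H.symm m a
  have y2 := H.symm m b
  have y3 := H.symm m (v j)
  have y4 := H.symm m (u j)
  have y5 := H.symm m (w j)
  have e1 := H.l3 (C.hp j) (o := m) (by omega)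
  have e3 := H.l3 (C.hq j) (o := m) (by omega)
  have e2 := H.R1 m (C.hk j)
  have Xij := C.inter H hij
  have Xji := C.inter1 H hij.symm
  have Xji' := C.inter H hij.symm
  have hcase : (δ m (p j) = 2 ∧ δ m (q j) = 3) ∨ (δ m (p j) = 3 ∧ δ m (q j) = 2) := by
    clear Xij Xji Xji'
    omega
  clear e2
  rcases hcase with ⟨hp2, hq3⟩ | ⟨hp3, hq2⟩
  · have h1 : δ m (u j) = 3 := by omega
    have h2 : δ (u j) t = 2 := H.l33 ht (by omega) (by omega)
    have h3 : δ t (u j) = 2 := by rw [H.symm]; exact h2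
    exact n5 (H.l22 hr h3 hc'.2)
  · have h1 : δ m (w j) = 3 := by omega
    have h2 : δ (w j) t = 2 := H.l33 ht (by omega) (by omega)
    have h3 : δ t (w j) = 2 := by rw [H.symm]; exact h2
    exact n4 (H.l22 hs h3 hc.2)


/-- Among ten paths, some four of the `v i` have a common neighbour. -/
theorem block [Fintype ι] [DecidableEq ι] (H : Hex δ T) (C : Conf δ T a b p q v u w)
    (hcard : Fintype.card ι = 10) :
    ∃ c, 4 ≤ (Finset.univ.filter (fun i => δ (v i) c = 1)).card := by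
  classical
  by_contra hcon
  push Not at hcon
  have hB : ∀ c, (Finset.univ.filter (fun i => δ (v i) c = 1)).card ≤ 3 := fun c => by
    have := hcon c
    omega
  have : Nonempty P := ⟨a⟩
  obtain ⟨i⟩ : Nonempty ι := by
    rw [← Fintype.card_pos_iff]; omega
  have h1 : ∀ i j, i ≠ j → ∃ c, δ (u i) c = 1 ∧ δ c (w j) = 1 := fun i j h =>
    H.mid (by have := C.inter H h; omega)
  choose! c hc using h1
  have h2 : ∀ i j, i ≠ j → ∃ s, T (w j) (c i j) s := fun i j h =>
    H.join (by have := hc i j h; have := H.symm (c i j) (w j); omega)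
  choose! s hs using h2
  have h3 : ∀ i j, i ≠ j → ∃ r, T (u i) (c i j) r := fun i j h =>
    H.join (by have := hc i j h; omega)
  choose! r hr using h3
  have h4 : ∀ i k, i ≠ k → ∃ m, δ (v i) m = 1 ∧ δ m (v k) = 1 := fun i j h =>
    H.mid (by have := C.inter H h; omega)
  choose! m hm using h4
  have h5 : ∀ i k, i ≠ k → ∃ t, T (v i) (m i k) t := fun i j h =>
    H.join (by have := hm i j h; omega)
  choose! t ht using h5
  have h6 : ∀ i k, i ≠ k → ∃ t', T (v k) (m i k) t' := fun i j h =>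
    H.join (by have := hm i j h; have := H.symm (m i j) (v j); omega)
  choose! t' ht' using h6
  set J : Finset ι := Finset.univ.erase i with hJ
  have hJc : J.card = 9 := by
    rw [hJ, Finset.card_erase_of_mem (Finset.mem_univ i), Finset.card_univ, hcard]
  set S : Finset (ι × ι) := J.offDiag with hS
  have hSc : S.card = 72 := by
    rw [hS, Finset.offDiag_card, hJc]
  have hSm : ∀ x ∈ S, x.1 ≠ i ∧ x.2 ≠ i ∧ x.1 ≠ x.2 := by
    intro x hx
    rw [hS, Finset.mem_offDiag] at hx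
    exact ⟨(Finset.mem_erase.1 hx.1).1, (Finset.mem_erase.1 hx.2.1).1, hx.2.2⟩
  have hSJ1 : ∀ x ∈ S, x.1 ∈ J := fun x hx => (Finset.mem_offDiag.1 hx).1
  have hSJ2 : ∀ x ∈ S, x.2 ∈ J := fun x hx => (Finset.mem_offDiag.1 hx).2.1
  set E1 := S.filter (fun x => δ (t' i x.2) (c i x.1) = 1) with hE1
  set E2 := S.filter (fun x => δ (t' i x.2) (c x.1 i) = 1) with hE2
  set E3 := S.filter (fun x => δ (v x.1) (m i x.2) = 1) with hE3
  set E4 := S.filter (fun x => δ (t i x.2) (s i x.1) = 1) with hE4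
  set E5 := S.filter (fun x => δ (t i x.2) (r x.1 i) = 1) with hE5
  have hcover : S ⊆ E1 ∪ E2 ∪ E3 ∪ E4 ∪ E5 := by
    intro x hx
    obtain ⟨n1, n2, n3⟩ := hSm x hx
    have hij := n1.symm
    have hik := n2.symm
    have := C.five H hij hik n3 (hc i x.1 hij).1 (hc i x.1 hij).2 (hs i x.1 hij)
      (hc x.1 i hij.symm).1 (hc x.1 i hij.symm).2 (hr x.1 i hij.symm)
      (hm i x.2 hik).1 (hm i x.2 hik).2 (ht i x.2 hik) (ht' i x.2 hik)
    simp only [Finset.mem_union, hE1, hE2, hE3, hE4, hE5, Finset.mem_filter]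
    rcases this with h | h | h | h | h
    · exact Or.inl (Or.inl (Or.inl (Or.inl ⟨hx, h⟩)))
    · exact Or.inl (Or.inl (Or.inl (Or.inr ⟨hx, h⟩)))
    · exact Or.inl (Or.inl (Or.inr ⟨hx, h⟩))
    · exact Or.inl (Or.inr ⟨hx, h⟩)
    · exact Or.inr ⟨hx, h⟩
  -- bounds
  have B1 : E1.card ≤ 1 * J.card := by
    refine Finset.card_le_mul_card_image_of_maps_to (f := Prod.snd) ?_ 1 ?_
    · intro x hx
      exact hSJ2 x (Finset.mem_filter.1 hx).1
    · intro k _
      rw [Finset.card_le_one]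
      intro x hx y hy
      obtain ⟨hx1, hx2⟩ := Finset.mem_filter.1 hx
      obtain ⟨hy1, hy2⟩ := Finset.mem_filter.1 hy
      obtain ⟨hx3, hx4⟩ := Finset.mem_filter.1 hx1
      obtain ⟨hy3, hy4⟩ := Finset.mem_filter.1 hy1
      obtain ⟨a1, a2, a3⟩ := hSm x hx3
      obtain ⟨b1, b2, b3⟩ := hSm y hy3
      obtain ⟨x1, x2⟩ := x
      obtain ⟨y1, y2⟩ := y
      simp only at *
      subst hx2
      subst hy2
      by_contra hne
      have hne' : x1 ≠ y1 := fun h => hne (by rw [h])
      have hX := C.inter H hne'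
      have hI := C.inter1 H a2.symm
      have p1 := hc i x1 a1.symm
      have p2 := hc i y1 b1.symm
      -- distance from `u i` to `t'` is at least 2
      have q1 := H.l3 (ht' i y2 a2.symm) (o := u i) (by omega)
      have w1 := H.symm (t' i y2) (c i x1)
      have w2 := H.symm (t' i y2) (c i y1)
      have e : c i x1 = c i y1 := H.midu (x := u i) (y := t' i y2) (by omega) (by omega)
        (by omega) (by omega) (by omega)
      have hb := C.bb H i
      have f1 := C.bb H x1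
      have f2 := C.bb H y1
      have e' : c i x1 = b := H.midu (x := w x1) (y := w y1) (by omega)
        (by rw [H.symm]; omega) (by rw [e]; omega) (by rw [H.symm]; omega) (by omega)
      have g1 := H.symm (u i) b
      rw [e'] at p1
      omega
  have B2 : E2.card ≤ 1 * J.card := by
    refine Finset.card_le_mul_card_image_of_maps_to (f := Prod.snd) ?_ 1 ?_
    · intro x hx
      exact hSJ2 x (Finset.mem_filter.1 hx).1
    · intro k _
      rw [Finset.card_le_one]
      intro x hx y hy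
      obtain ⟨hx1, hx2⟩ := Finset.mem_filter.1 hx
      obtain ⟨hy1, hy2⟩ := Finset.mem_filter.1 hy
      obtain ⟨hx3, hx4⟩ := Finset.mem_filter.1 hx1
      obtain ⟨hy3, hy4⟩ := Finset.mem_filter.1 hy1
      obtain ⟨a1, a2, a3⟩ := hSm x hx3
      obtain ⟨b1, b2, b3⟩ := hSm y hy3
      obtain ⟨x1, x2⟩ := x
      obtain ⟨y1, y2⟩ := y
      simp only at *
      subst hx2
      subst hy2
      by_contra hne
      have hne' : x1 ≠ y1 := fun h => hne (by rw [h])
      have hX := C.inter1 H hne'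
      have hI := C.inter H a2.symm
      have p1 := hc x1 i a1
      have p2 := hc y1 i b1
      have q1 := H.l3 (ht' i y2 a2.symm) (o := w i) (by omega)
      have w1 := H.symm (t' i y2) (c x1 i)
      have w2 := H.symm (t' i y2) (c y1 i)
      have w3 := H.symm (c x1 i) (w i)
      have w4 := H.symm (c y1 i) (w i)
      have e : c x1 i = c y1 i := H.midu (x := w i) (y := t' i y2) (by omega) (by omega)
        (by omega) (by omega) (by omega)
      have hb := C.aa H i
      have f1 := C.aa H x1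
      have f2 := C.aa H y1
      have e' : c x1 i = a := H.midu (x := u x1) (y := u y1) (by omega)
        (by omega) (by rw [e, H.symm]; omega) (by rw [H.symm]; omega) (by omega)
      rw [e'] at p1
      omega
  have B3 : E3.card ≤ 1 * J.card := by
    refine Finset.card_le_mul_card_image_of_maps_to (f := Prod.fst) ?_ 1 ?_
    · intro x hx
      exact hSJ1 x (Finset.mem_filter.1 hx).1
    · intro j hj
      have hji : j ≠ i := (Finset.mem_erase.1 hj).1
      set F := E3.filter (fun x => x.1 = j) with hF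
      set B := Finset.univ.filter (fun k => δ (v k) (m i j) = 1) with hBd
      have hiB : i ∈ B := by
        rw [hBd, Finset.mem_filter]
        exact ⟨Finset.mem_univ _, (hm i j hji.symm).1⟩
      have hjB : j ∈ B := by
        rw [hBd, Finset.mem_filter]
        exact ⟨Finset.mem_univ _, by rw [H.symm]; exact (hm i j hji.symm).2⟩
      have hsub : F.image Prod.snd ⊆ (B.erase i).erase j := by
        intro k hk
        rw [Finset.mem_image] at hk
        obtain ⟨x, hx, rfl⟩ := hk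
        obtain ⟨hx1, hx2⟩ := Finset.mem_filter.1 hx
        obtain ⟨hx3, hx4⟩ := Finset.mem_filter.1 hx1
        obtain ⟨a1, a2, a3⟩ := hSm x hx3
        subst hx2
        have p1 := hm i x.2 a2.symm
        have p2 := hm i x.1 a1.symm
        have X := C.inter H a1
        have y1 := H.symm (v i) (m i x.2)
        have y2 := H.symm (v i) (m i x.1)
        have y3 := H.symm (v x.1) (m i x.1)
        have e : m i x.2 = m i x.1 := H.midu (x := v x.1) (y := v i) (by omega)
          (by omega) (by omega) (by omega) (by omega)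
        rw [Finset.mem_erase, Finset.mem_erase, hBd, Finset.mem_filter]
        refine ⟨a3.symm, a2, Finset.mem_univ _, ?_⟩
        rw [← e, H.symm]
        exact p1.2
      have hinj : (F.image Prod.snd).card = F.card := by
        apply Finset.card_image_of_injOn
        intro x hx y hy hxy
        have e1 := (Finset.mem_filter.1 hx).2
        have e2 := (Finset.mem_filter.1 hy).2
        exact Prod.ext (e1.trans e2.symm) hxy
      have hc1 : ((B.erase i).erase j).card ≤ 1 := by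
        rw [Finset.card_erase_of_mem (Finset.mem_erase.2 ⟨hji, hjB⟩),
          Finset.card_erase_of_mem hiB]
        have : B.card ≤ 3 := hB (m i j)
        omega
      have := Finset.card_le_card hsub
      omega
  have B45 : ∀ (E : Finset (ι × ι)), E ⊆ S →
      (∀ x ∈ E, ∀ y ∈ E, x.1 = y.1 → t i x.2 = t i y.2) → E.card ≤ 2 * J.card := by
    intro E hES hE
    refine Finset.card_le_mul_card_image_of_maps_to (f := Prod.fst) ?_ 2 ?_
    · intro x hx
      exact hSJ1 x (hES hx)
    · intro j hj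
      set F := E.filter (fun x => x.1 = j) with hF
      rcases F.eq_empty_or_nonempty with h0 | ⟨z, hz⟩
      · rw [h0]; simp
      obtain ⟨hz1, hz2⟩ := Finset.mem_filter.1 hz
      obtain ⟨z1, z2, z3⟩ := hSm z (hES hz1)
      set B := Finset.univ.filter (fun k => δ (v k) (m i z.2) = 1) with hBd
      have hiB : i ∈ B := by
        rw [hBd, Finset.mem_filter]
        exact ⟨Finset.mem_univ _, (hm i z.2 z2.symm).1⟩
      have hsub : F.image Prod.snd ⊆ B.erase i := by
        intro k hk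
        rw [Finset.mem_image] at hk
        obtain ⟨x, hx, rfl⟩ := hk
        obtain ⟨hx1, hx2⟩ := Finset.mem_filter.1 hx
        obtain ⟨a1, a2, a3⟩ := hSm x (hES hx1)
        have e := hE x hx1 z hz1 (hx2.trans hz2.symm)
        have T1 := H.t2 (ht i x.2 a2.symm)
        have T2 := H.t2 (ht i z.2 z2.symm)
        rw [e] at T1
        have e2 := H.third T1 T2
        rw [Finset.mem_erase, hBd, Finset.mem_filter]
        refine ⟨a2, Finset.mem_univ _, ?_⟩
        rw [← e2, H.symm]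
        exact (hm i x.2 a2.symm).2
      have hinj : (F.image Prod.snd).card = F.card := by
        apply Finset.card_image_of_injOn
        intro x hx y hy hxy
        have e1 := (Finset.mem_filter.1 hx).2
        have e2 := (Finset.mem_filter.1 hy).2
        exact Prod.ext (e1.trans e2.symm) hxy
      have hc1 : (B.erase i).card ≤ 2 := by
        rw [Finset.card_erase_of_mem hiB]
        have : B.card ≤ 3 := hB (m i z.2)
        omega
      have := Finset.card_le_card hsub
      omega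
  have B4 : E4.card ≤ 2 * J.card := by
    refine B45 E4 (Finset.filter_subset _ _) ?_
    intro x hx y hy hxy
    obtain ⟨hx1, hx2⟩ := Finset.mem_filter.1 hx
    obtain ⟨hy1, hy2⟩ := Finset.mem_filter.1 hy
    obtain ⟨a1, a2, a3⟩ := hSm x hx1
    obtain ⟨b1, b2, b3⟩ := hSm y hy1
    have c1 := C.cfact H a1.symm (hc i x.1 a1.symm).1 (hc i x.1 a1.symm).2
    have X := C.inter H a1
    have y1 := H.symm (w x.1) (v i)
    have hvs : δ (v i) (s i x.1) = 2 := H.l33 (hs i x.1 a1.symm) (by omega) c1.2.2.2.1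
    rw [← hxy] at hy2
    have R1 := H.R1 (v i) (ht i x.2 a2.symm)
    have R2 := H.R1 (v i) (ht i y.2 b2.symm)
    have s0 := H.self (v i)
    have p1 := hm i x.2 a2.symm
    have p2 := hm i y.2 b2.symm
    exact H.midu (x := v i) (y := s i x.1) (by omega) (by omega) hx2 (by omega) hy2
  have B5 : E5.card ≤ 2 * J.card := by
    refine B45 E5 (Finset.filter_subset _ _) ?_
    intro x hx y hy hxy
    obtain ⟨hx1, hx2⟩ := Finset.mem_filter.1 hx
    obtain ⟨hy1, hy2⟩ := Finset.mem_filter.1 hy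
    obtain ⟨a1, a2, a3⟩ := hSm x hx1
    obtain ⟨b1, b2, b3⟩ := hSm y hy1
    have c1 := C.cfact H a1 (hc x.1 i a1).1 (hc x.1 i a1).2
    have X := C.inter1 H a1
    have y1 := H.symm (u x.1) (v i)
    have hvs : δ (v i) (r x.1 i) = 2 := H.l33 (hr x.1 i a1) (by omega) c1.2.2.2.2.1
    rw [← hxy] at hy2
    have R1 := H.R1 (v i) (ht i x.2 a2.symm)
    have R2 := H.R1 (v i) (ht i y.2 b2.symm)
    have s0 := H.self (v i)
    have p1 := hm i x.2 a2.symm
    have p2 := hm i y.2 b2.symm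
    exact H.midu (x := v i) (y := r x.1 i) (by omega) (by omega) hx2 (by omega) hy2
  have htot := Finset.card_le_card hcover
  have u1 := Finset.card_union_le (E1 ∪ E2 ∪ E3 ∪ E4) E5
  have u2 := Finset.card_union_le (E1 ∪ E2 ∪ E3) E4
  have u3 := Finset.card_union_le (E1 ∪ E2) E3
  have u4 := Finset.card_union_le E1 E2
  omega


/-- extension step: if the closed pair `i0, i1` exists, then `c` is at distance two from `p l` -/
lemma ext (H : Hex δ T) (C : Conf δ T a b p q v u w) {i0 i1 l : ι} (h01 : i0 ≠ i1)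
    (hl0 : l ≠ i0) (hl1 : l ≠ i1) {c y x z yy : P} (hc : T (v i1) y c)
    (hx1 : δ (u i1) x = 1) (hx2 : δ x (w i0) = 1) (hT1 : T (w i0) x z) (hT2 : T z yy y)
    (hyy1 : δ (u i0) yy = 1) (hyy2 : δ yy y = 1) (hay : δ a y = 3) (hpy : δ (p i0) y = 3) :
    δ (p l) c = 2 := by
  have c1 := C.cfact H h01.symm hx1 hx2
  have h1 : δ (p l) x = 3 := c1.1 l hl1
  have h2 := C.inter H hl0.symm
  have h3 : δ (p l) (w i0) = 3 := by rw [H.symm]; omega
  have h4 : δ (p l) z = 2 := H.l33 hT1 h3 h1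
  have I0 := C.intra H i0
  have A0 := C.aa H i0
  have Al := C.aa H l
  have Y := C.inter1 H hl0
  have Y1 := C.inter1 H hl1
  obtain ⟨r, hr⟩ := H.join hyy1
  have n1 : yy ≠ a := H.ne_of' (z := y) (by omega)
  have n2 : yy ≠ p i0 := H.ne_of' (z := y) (by omega)
  have Ta : T (u i0) a (p i0) := H.t1 (H.t2 (C.hp i0))
  have sa := H.symm a (p l)
  have h5 := H.away (x := p l) Ta hr (by omega) (by omega) n1 n2
  have h6 : δ (p l) y = 3 := H.l23 hT2 h4 (by omega)
  exact H.l33 hc (by omega) h6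

end Conf

/-- Three mutually opposite points `a, b, c` and a family of lines `{f1 i, f2 i, f3 i}` meeting a
line through each of them; `e1, e2, e3` are the remaining points on the lines through
`a, b, c`. -/
structure Trio (δ : P → P → ℕ) (T : P → P → P → Prop) {ι : Type*} (a b c : P)
    (f1 f2 f3 e1 e2 e3 : ι → P) : Prop where
  ab : δ a b = 3
  bc : δ b c = 3
  ac : δ a c = 3
  l1 : ∀ i, T a (f1 i) (e1 i)
  l2 : ∀ i, T b (f2 i) (e2 i)
  l3 : ∀ i, T c (f3 i) (e3 i)
  lf : ∀ i, T (f1 i) (f2 i) (f3 i)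
  inj : ∀ i j, i ≠ j → f1 i ≠ f1 j

namespace Trio

variable {δ : P → P → ℕ} {T : P → P → P → Prop} {ι : Type*} {a b c : P}
  {f1 f2 f3 e1 e2 e3 : ι → P}

lemma conf (X : Trio δ T a b c f1 f2 f3 e1 e2 e3) : Conf δ T a b f1 f2 f3 e1 e2 :=
  ⟨X.ab, X.l1, X.lf, X.l2, X.inj⟩

lemma conf' (H : Hex δ T) (X : Trio δ T a b c f1 f2 f3 e1 e2 e3) :
    Conf δ T a c f1 f3 f2 e1 e3 :=
  ⟨X.ac, X.l1, fun i => H.t2 (X.lf i), X.l3, X.inj⟩

lemma swap (H : Hex δ T) (X : Trio δ T a b c f1 f2 f3 e1 e2 e3) :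
    Trio δ T b a c f2 f1 f3 e2 e1 e3 :=
  ⟨by rw [H.symm]; exact X.ab, X.ac, X.bc, X.l2, X.l1, X.l3, fun i => H.t1 (X.lf i),
    X.conf.qinj H⟩

lemma rot (H : Hex δ T) (X : Trio δ T a b c f1 f2 f3 e1 e2 e3) :
    Trio δ T b c a f2 f3 f1 e2 e3 e1 :=
  ⟨X.bc, by rw [H.symm]; exact X.ac, by rw [H.symm]; exact X.ab, X.l2, X.l3, X.l1,
    fun i => H.t2 (H.t1 (X.lf i)), X.conf.qinj H⟩

/-- With four indices all pairs are closed: the lines through `e1 i0` towards `e2 i1` and towards
`e3 i1` coincide. -/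
lemma closed (H : Hex δ T) (X : Trio δ T a b c f1 f2 f3 e1 e2 e3) {i0 i1 i2 i3 : ι}
    (h01 : i0 ≠ i1) (h02 : i0 ≠ i2) (h03 : i0 ≠ i3) (h12 : i1 ≠ i2) (h13 : i1 ≠ i3)
    (h23 : i2 ≠ i3) {x z : P} (hx1 : δ (e1 i0) x = 1) (hx2 : δ x (e2 i1) = 1)
    (hz1 : δ (e1 i0) z = 1) (hz2 : δ z (e3 i1) = 1) : T (e1 i0) x z := by
  have C := X.conf
  have C2 := X.conf' H
  have C3 := (X.rot H).conf
  have I3 := C3.intra H i1
  have J := C2.inter H h01
  obtain ⟨r, hr⟩ := H.join hx1
  obtain ⟨r', hr'⟩ := H.join hz1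
  have hxz : x ≠ z := by
    rintro rfl
    have s1 := H.symm x (e2 i1)
    obtain ⟨k, hk⟩ := H.join (x := x) (y := e3 i1) hz2
    have R := H.R1 (e2 i1) hk
    omega
  by_cases hzr : z = r
  · rw [hzr]; exact hr
  exfalso
  have hxr' : x ≠ r' := by
    rintro rfl
    exact hzr (H.third (H.t2 hr') hr)
  have sz := H.symm (e3 i1) z
  have se := H.symm (e3 i1) (e1 i0)
  have g1 := H.away (x := e3 i1) hr' hr (by omega) (by omega) hxz hxr'
  obtain ⟨c1, c2, c3, c4, c5, c6, c7⟩ := C.cfact H h01 hx1 hx2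
  have g2 : δ x c = 2 := by
    refine H.l33 (H.t2 (H.t1 (X.l3 i1))) ?_ ?_
    · rw [H.symm]; exact c5
    · rw [H.symm]; omega
  have g3 : ∀ k, k ≠ i0 → k ≠ i1 → δ x (e3 k) = 1 := by
    intro k hk0 hk1
    exact H.l22 (X.l3 k) g2 (c3 k hk0 hk1)
  have h2 := g3 i2 h02.symm h12.symm
  have h3 := g3 i3 h03.symm h13.symm
  have K := C2.inter H h23
  have L2 := C2.bb H i2
  have L3 := C2.bb H i3
  have L0 := C2.bb H i0
  have hxc : x = c := H.midu (x := e3 i2) (y := e3 i3) (by omega) (by rw [H.symm]; omega)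
    (by omega) (by rw [H.symm]; omega) (by omega)
  rw [hxc, H.self] at g2
  omega

/-- In a closed family a point opposite `a, b, c` is at distance two from at most three
of the `f1 i`. -/
lemma tour (H : Hex δ T) (X : Trio δ T a b c f1 f2 f3 e1 e2 e3) {o : P}
    (hoa : δ o a = 3) (hob : δ o b = 3) (hoc : δ o c = 3) {i0 i1 i2 i3 : ι}
    (h01 : i0 ≠ i1) (h02 : i0 ≠ i2) (h03 : i0 ≠ i3) (h12 : i1 ≠ i2) (h13 : i1 ≠ i3)
    (h23 : i2 ≠ i3)
    (k0 : δ o (f1 i0) = 2) (k1 : δ o (f1 i1) = 2) (k2 : δ o (f1 i2) = 2)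
    (k3 : δ o (f1 i3) = 2)
    (cl1 : ∀ i j, i ≠ j → ∀ x z, δ (e1 i) x = 1 → δ x (e2 j) = 1 → δ (e1 i) z = 1 →
      δ z (e3 j) = 1 → T (e1 i) x z)
    (cl2 : ∀ i j, i ≠ j → ∀ x z, δ (e2 i) x = 1 → δ x (e1 j) = 1 → δ (e2 i) z = 1 →
      δ z (e3 j) = 1 → T (e2 i) x z)
    (cl3 : ∀ i j, i ≠ j → ∀ x z, δ (e3 i) x = 1 → δ x (e1 j) = 1 → δ (e3 i) z = 1 →
      δ z (e2 j) = 1 → T (e3 i) x z) : False := by
  have C12 := X.conf
  have C13 := X.conf' H
  have C23 := (X.rot H).conf
  have hP : Nonempty P := ⟨a⟩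
  have m1 : ∀ i j, i ≠ j → ∃ x, δ (e1 i) x = 1 ∧ δ x (e2 j) = 1 := fun i j h =>
    H.mid (by have := C12.inter H h; omega)
  choose! x hx using m1
  have m2 : ∀ i j, i ≠ j → ∃ x, δ (e1 i) x = 1 ∧ δ x (e3 j) = 1 := fun i j h =>
    H.mid (by have := C13.inter H h; omega)
  choose! y hy using m2
  have m3 : ∀ i j, i ≠ j → ∃ x, δ (e2 i) x = 1 ∧ δ x (e3 j) = 1 := fun i j h =>
    H.mid (by have := C23.inter H h; omega)
  choose! z hz using m3
  -- distances from `o`
  have hd : ∀ i, δ o (f1 i) = 2 → δ o (e1 i) = 3 ∧ δ o (e2 i) = 2 ∧ δ o (e3 i) = 2 := by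
    intro i hi
    have g1 := H.l32 (X.l1 i) hoa hi
    have g2 := H.l3 (X.l2 i) hob
    have g3 := H.l3 (X.l3 i) hoc
    have g4 := H.l2 (X.lf i) hi
    omega
  -- the tournament
  have ht : ∀ i j, i ≠ j → δ o (f1 i) = 2 → δ o (f1 j) = 2 →
      δ o (z i j) = 1 ∨ δ o (z j i) = 1 := by
    intro i j hij hi hj
    obtain ⟨i1, i2, i3⟩ := hd i hi
    obtain ⟨j1, j2, j3⟩ := hd j hj
    have xij := hx i j hij
    have xji := hx j i hij.symm
    have yij := hy i j hij
    have yji := hy j i hij.symm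
    have zij := hz i j hij
    have zji := hz j i hij.symm
    have T1 := cl1 i j hij (x i j) (y i j) xij.1 xij.2 yij.1 yij.2
    have T2 := cl1 j i hij.symm (x j i) (y j i) xji.1 xji.2 yji.1 yji.2
    have T3 := cl2 i j hij (x j i) (z i j) (by rw [H.symm]; exact xji.2)
      (by rw [H.symm]; exact xji.1) zij.1 zij.2
    have T4 := cl3 i j hij (y j i) (z j i) (by rw [H.symm]; exact yji.2)
      (by rw [H.symm]; exact yji.1) (by rw [H.symm]; exact zji.2) (by rw [H.symm]; exact zji.1)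
    have r2 := H.l3 T2 j1
    have r3 := H.l2 T3 i2
    have r4 := H.l2 T4 i3
    omega
  -- out-degree at most one
  have hout : ∀ i j k, i ≠ j → i ≠ k → j ≠ k → δ o (f1 i) = 2 → δ o (z i j) = 1 →
      δ o (z i k) = 1 → False := by
    intro i j k hij hik hjk hi h1 h2
    obtain ⟨i1, i2, i3⟩ := hd i hi
    have zij := hz i j hij
    have zik := hz i k hik
    have e : z i j = z i k := H.midu (x := o) (y := e2 i) (by omega) h1
      (by rw [H.symm]; omega) h2 (by rw [H.symm]; omega)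
    have J := C23.inter H hjk
    have Bj := C23.bb H j
    have Bk := C23.bb H k
    have Bi := C23.bb H i
    have e' : z i j = c := H.midu (x := e3 j) (y := e3 k) (by omega)
      (by rw [H.symm]; omega) (by rw [e]; omega) (by rw [H.symm]; omega) (by omega)
    have s := H.symm (e2 i) c
    rw [e'] at zij
    omega
  -- in-degree at most one
  have hin : ∀ i j k, i ≠ j → i ≠ k → j ≠ k → δ o (f1 j) = 2 → δ o (f1 k) = 2 →
      δ o (z j i) = 1 → δ o (z k i) = 1 → False := by
    intro i j k hij hik hjk hj hk h1 h2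
    rcases ht j k hjk hj hk with h | h
    · exact hout j i k hij.symm hjk hik hj h1 h
    · exact hout k i j hik.symm hjk.symm hij hk h2 h
  rcases ht i0 i1 h01 k0 k1 with r1 | r1 <;> rcases ht i0 i2 h02 k0 k2 with r2 | r2 <;>
    rcases ht i0 i3 h03 k0 k3 with r3 | r3
  · exact hout i0 i1 i2 h01 h02 h12 k0 r1 r2
  · exact hout i0 i1 i2 h01 h02 h12 k0 r1 r2
  · exact hout i0 i1 i3 h01 h03 h13 k0 r1 r3
  · exact hin i0 i2 i3 h02 h03 h23 k2 k3 r2 r3
  · exact hout i0 i2 i3 h02 h03 h23 k0 r2 r3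
  · exact hin i0 i1 i3 h01 h03 h13 k1 k3 r1 r3
  · exact hin i0 i1 i2 h01 h02 h12 k1 k2 r1 r2
  · exact hin i0 i1 i2 h01 h02 h12 k1 k2 r1 r2

lemma exists_notMem {ι : Type*} [Fintype ι] [DecidableEq ι] {n : ℕ}
    (hcard : Fintype.card ι = n) (s : Finset ι) (hs : s.card < n) : ∃ x, x ∉ s := by
  by_contra hcon
  push Not at hcon
  have : s = Finset.univ := by
    ext x; simp [hcon x]
  rw [this, Finset.card_univ, hcard] at hs
  exact lt_irrefl _ hs

lemma closed' [Fintype ι] [DecidableEq ι] (H : Hex δ T)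
    (X : Trio δ T a b c f1 f2 f3 e1 e2 e3) (hcard : Fintype.card ι = 10) :
    ∀ i j, i ≠ j → ∀ x z, δ (e1 i) x = 1 → δ x (e2 j) = 1 → δ (e1 i) z = 1 →
      δ z (e3 j) = 1 → T (e1 i) x z := by
  intro i j hij x z h1 h2 h3 h4
  obtain ⟨k, hk⟩ := exists_notMem hcard {i, j} (by
    have := Finset.card_le_two (a := i) (b := j); omega)
  obtain ⟨l, hl⟩ := exists_notMem hcard {i, j, k} (by
    have := Finset.card_le_three (a := i) (b := j) (c := k); omega)
  simp only [Finset.mem_insert, Finset.mem_singleton, not_or] at hk hl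
  exact X.closed H hij (fun h => hk.1 h.symm) (fun h => hl.1 h.symm) (fun h => hk.2 h.symm)
    (fun h => hl.2.1 h.symm) (fun h => hl.2.2 h.symm) h1 h2 h3 h4

/-- a point opposite `a, b, c` -/
lemma exists_opp [Fintype ι] [DecidableEq ι] (H : Hex δ T)
    (X : Trio δ T a b c f1 f2 f3 e1 e2 e3) (hcard : Fintype.card ι = 10) :
    ∃ o, δ o a = 3 ∧ δ o b = 3 ∧ δ o c = 3 := by
  have hcl := X.closed' H hcard
  obtain ⟨i, -⟩ := exists_notMem hcard ∅ (by simp)
  obtain ⟨j, hj⟩ := exists_notMem hcard {i} (by simp)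
  obtain ⟨k, hk⟩ := exists_notMem hcard {i, j} (by
    have := Finset.card_le_two (a := i) (b := j); omega)
  simp only [Finset.mem_insert, Finset.mem_singleton, not_or] at hj hk
  have hij : i ≠ j := fun h => hj h.symm
  have C := X.conf
  have C2 := X.conf' H
  have C3 := (X.rot H).conf
  obtain ⟨x, hx1, hx2⟩ := H.mid (x := e1 i) (y := e2 j) (by have := C.inter H hij; omega)
  obtain ⟨z, hz1, hz2⟩ := H.mid (x := e1 i) (y := e3 j) (by have := C2.inter H hij; omega)
  have Tz := hcl i j hij x z hx1 hx2 hz1 hz2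
  obtain ⟨c1, c2, c3, c4, c5, c6, c7⟩ := C.cfact H hij hx1 hx2
  have hxk := c3 k hk.1 hk.2
  obtain ⟨n, hn1, hn2⟩ := H.mid hxk
  obtain ⟨o, ho⟩ := H.join hn1
  -- distances from `c`
  have J := C2.inter H hij
  have hex : δ (e3 j) x = 2 := by
    have h1 : δ (e3 j) (e1 i) = 2 := by rw [H.symm]; omega
    exact H.l21 (H.t2 Tz) h1 (by rw [H.symm]; exact hz2)
  have hcx : δ x c = 3 := by
    have h1 : δ x (f3 j) = 3 := by rw [H.symm]; exact c5
    have h2 : δ x (e3 j) = 2 := by rw [H.symm]; exact hex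
    exact H.l32 (H.t2 (H.t1 (X.l3 j))) h1 h2
  have C2b := C2.bb H k
  have Ck := C.inter1 H (i := i) (j := k) (fun h => hk.1 h.symm)
  have Ck2 := C.inter H (i := j) (j := k) (fun h => hk.2 h.symm)
  have hcn : δ c n = 2 := by
    have s1 := H.symm c x
    have R := H.R1 c ho
    have R2 := H.le c n
    obtain ⟨y, hy⟩ := H.join hn2
    have R3 := H.R1 c hy
    omega
  have hco : δ c o = 3 := H.l32 ho (by rw [H.symm]; exact hcx) hcn
  have hfx : δ (f3 k) x = 2 := by rw [H.symm]; exact hxk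
  have hfn : δ (f3 k) n = 1 := by rw [H.symm]; exact hn2
  have key : ∀ d g : P, δ d x = 2 → δ d g = 1 → δ x g = 1 → δ g (f3 k) = 3 → δ d o = 3 := by
    intro d g h1 h2 h3 h4
    obtain ⟨r, hr⟩ := H.join h3
    have n1 : n ≠ g := H.ne_of' (z := f3 k) (by omega)
    have n2 : n ≠ r := by
      rintro rfl
      have := H.R1 (f3 k) hr
      have := H.symm (f3 k) g
      omega
    have := H.away (x := d) hr ho (by omega) (by omega) n1 n2
    omega
  have A := C.aa H i
  have B := C.bb H j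
  refine ⟨o, ?_, ?_, ?_⟩
  · rw [H.symm]
    exact key a (e1 i) c6 A.2.1 (by rw [H.symm]; exact hx1) (by omega)
  · rw [H.symm]
    exact key b (e2 j) c7 B.2.1 hx2 (by omega)
  · rw [H.symm]; exact hco

end Trio

open Trio in
theorem Conf.false_of_ten {δ : P → P → ℕ} {T : P → P → P → Prop} {ι : Type*} {a b : P}
    {p q v u w : ι → P} [Fintype ι] [DecidableEq ι] (H : Hex δ T)
    (C : Conf δ T a b p q v u w) (hcard : Fintype.card ι = 10) : False := by
  classical
  obtain ⟨c, hc⟩ := C.block H hcard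
  -- a generic way to pick four indices
  have pick : ∀ (Q : ι → Prop) [DecidablePred Q], 4 ≤ (Finset.univ.filter Q).card →
      ∃ g : Fin 4 → ι, (∀ m n, m ≠ n → g m ≠ g n) ∧ ∀ n, Q (g n) := by
    intro Q _ hQ
    have h4 : Fintype.card (Fin 4) ≤ Fintype.card {i // Q i} := by
      rw [Fintype.card_subtype, Fintype.card_fin]; exact hQ
    obtain ⟨e⟩ := Function.Embedding.nonempty_of_card_le h4
    exact ⟨fun n => (e n).1, fun m n h h' => h (e.injective (Subtype.ext h')), fun n => (e n).2⟩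
  obtain ⟨g, hg1, hg2⟩ := pick (fun i => δ (v i) c = 1) hc
  have h01 : (0 : Fin 4) ≠ 1 := by decide
  have h02 : (0 : Fin 4) ≠ 2 := by decide
  have h03 : (0 : Fin 4) ≠ 3 := by decide
  have h12 : (1 : Fin 4) ≠ 2 := by decide
  have h13 : (1 : Fin 4) ≠ 3 := by decide
  have h23 : (2 : Fin 4) ≠ 3 := by decide
  obtain ⟨hac, hbc, -⟩ := C.mfact H (hg1 0 1 h01) (hg2 0) (by rw [H.symm]; exact hg2 1)
  have hy : ∀ n : Fin 4, ∃ y, T c (v (g n)) y := fun n =>
    H.join (by rw [H.symm]; exact hg2 n)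
  choose y hy using hy
  have X : Trio δ T a b c (fun n => p (g n)) (fun n => q (g n)) (fun n => v (g n))
      (fun n => u (g n)) (fun n => w (g n)) y :=
    ⟨C.ab, hbc, hac, fun n => C.hp _, fun n => C.hq _, hy, fun n => C.hk _,
      fun m n h => C.inj _ _ (hg1 m n h)⟩
  have C12 := X.conf
  have C13 := X.conf' H
  have C23 := (X.rot H).conf
  -- all the `v l` are collinear with `c`
  have hall : ∀ l, δ c (v l) = 1 := by
    intro l
    by_cases hl0 : l = g 0
    · rw [hl0, H.symm]; exact hg2 0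
    by_cases hl1 : l = g 1
    · rw [hl1, H.symm]; exact hg2 1
    have hg01 := hg1 0 1 h01
    obtain ⟨x, hx1, hx2⟩ := H.mid (x := u (g 1)) (y := w (g 0))
      (by have := C.inter H hg01.symm; omega)
    obtain ⟨x', hx1', hx2'⟩ := H.mid (x := w (g 1)) (y := u (g 0))
      (by rw [H.symm]; have := C.inter H hg01; omega)
    obtain ⟨z, hz1, hz2⟩ := H.mid (x := w (g 0)) (y := y 1)
      (by have := C23.inter H h01; omega)
    obtain ⟨yy, hyy1, hyy2⟩ := H.mid (x := u (g 0)) (y := y 1)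
      (by have := C13.inter H h01; omega)
    have T1 : T (w (g 0)) x z := (X.swap H).closed H h01 h02 h03 h12 h13 h23
      (by rw [H.symm]; exact hx2) (by rw [H.symm]; exact hx1) hz1 hz2
    have T2 : T (y 1) yy z := ((X.rot H).rot H).closed H h01.symm h12 h13 h02 h03 h23
      (by rw [H.symm]; exact hyy2) (by rw [H.symm]; exact hyy1)
      (by rw [H.symm]; exact hz2) (by rw [H.symm]; exact hz1)
    have T3 : T (u (g 0)) x' yy := X.closed H h01 h02 h03 h12 h13 h23
      (by rw [H.symm]; exact hx2') (by rw [H.symm]; exact hx1') hyy1 hyy2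
    have Tc : T (v (g 1)) (y 1) c := H.t2 (H.t1 (hy 1))
    have e13 := C13.aa H 1
    have e23 := C23.aa H 1
    have j13 := C13.inter H h01.symm
    have j23 := C23.inter H h01.symm
    have hp : δ (p l) c = 2 := C.ext H hg01 hl0 hl1 Tc hx1 hx2 T1 (H.t1 (H.t2 (H.t1 T2)))
      hyy1 hyy2 (by omega) (by rw [H.symm]; omega)
    have hq : δ (q l) c = 2 := (C.swap H).ext H hg01 hl0 hl1 Tc hx1' hx2' T3
      (H.t2 (H.t1 T2)) hz1 hz2 (by omega) (by rw [H.symm]; omega)
    exact H.l22 (C.hk l) (by rw [H.symm]; exact hp) (by rw [H.symm]; exact hq)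
  have hY : ∀ l, ∃ y, T c (v l) y := fun l => H.join (hall l)
  choose Y hY using hY
  have X' : Trio δ T a b c p q v u w Y :=
    ⟨C.ab, hbc, hac, C.hp, C.hq, hY, C.hk, C.inj⟩
  obtain ⟨o, hoa, hob, hoc⟩ := X'.exists_opp H hcard
  have cl123 := X'.closed' H hcard
  have cl213 := (X'.swap H).closed' H hcard
  have cl231 := (X'.rot H).closed' H hcard
  have cl312 := ((X'.rot H).rot H).closed' H hcard
  have cl321 := ((X'.rot H).swap H).closed' H hcard
  have cl132 := (((X'.rot H).rot H).swap H).closed' H hcard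
  have hcol : ∀ l, δ o (p l) = 2 ∨ δ o (q l) = 2 ∨ δ o (v l) = 2 := by
    intro l
    have g1 := H.l3 (X'.l1 l) hoa
    have g2 := H.l3 (X'.l2 l) hob
    have g3 := H.l3 (X'.l3 l) hoc
    have g4 := H.R1 o (X'.lf l)
    omega
  have hun : (Finset.univ : Finset ι) ⊆ (Finset.univ.filter fun l => δ o (p l) = 2) ∪
      (Finset.univ.filter fun l => δ o (q l) = 2) ∪
      (Finset.univ.filter fun l => δ o (v l) = 2) := by
    intro l _
    simp only [Finset.mem_union, Finset.mem_filter, Finset.mem_univ, true_and]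
    have := hcol l
    tauto
  have hu := Finset.card_le_card hun
  rw [Finset.card_univ, hcard] at hu
  have hu1 := Finset.card_union_le ((Finset.univ.filter fun l => δ o (p l) = 2) ∪
      (Finset.univ.filter fun l => δ o (q l) = 2)) (Finset.univ.filter fun l => δ o (v l) = 2)
  have hu2 := Finset.card_union_le (Finset.univ.filter fun l => δ o (p l) = 2)
      (Finset.univ.filter fun l => δ o (q l) = 2)
  have hcases : 4 ≤ (Finset.univ.filter fun l => δ o (p l) = 2).card ∨
      4 ≤ (Finset.univ.filter fun l => δ o (q l) = 2).card ∨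
      4 ≤ (Finset.univ.filter fun l => δ o (v l) = 2).card := by omega
  rcases hcases with h | h | h
  · obtain ⟨k, hk1, hk2⟩ := pick _ h
    exact X'.tour H hoa hob hoc (hk1 0 1 h01) (hk1 0 2 h02) (hk1 0 3 h03) (hk1 1 2 h12)
      (hk1 1 3 h13) (hk1 2 3 h23) (hk2 0) (hk2 1) (hk2 2) (hk2 3) cl123 cl213 cl312
  · obtain ⟨k, hk1, hk2⟩ := pick _ h
    exact (X'.rot H).tour H hob hoc hoa (hk1 0 1 h01) (hk1 0 2 h02) (hk1 0 3 h03) (hk1 1 2 h12)
      (hk1 1 3 h13) (hk1 2 3 h23) (hk2 0) (hk2 1) (hk2 2) (hk2 3) cl231 cl321 cl123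
  · obtain ⟨k, hk1, hk2⟩ := pick _ h
    exact ((X'.rot H).rot H).tour H hoc hoa hob (hk1 0 1 h01) (hk1 0 2 h02) (hk1 0 3 h03)
      (hk1 1 2 h12) (hk1 1 3 h13) (hk1 2 3 h23) (hk2 0) (hk2 1) (hk2 2) (hk2 3)
      cl312 cl132 cl231

end Pool.Agent.GenPolygon
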